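import Pool.Agent.N303.LS.Stm2

/-!
# Project LS (helper303), leaf BES: Bessel potentials are averages of translations (helper413)
-/

set_option autoImplicit false

namespace Pool.Agent.N413.LSBES

open MeasureTheory Pool.Agent.N303.LS
open scoped ENNReal FourierTransform RealInnerProductSpace SchwartzMap

variable {d : ℕ}

/-- the constant `(4π)^(d/2)` -/
noncomputable def Kr (d : ℕ) : ℝ := (4 * Real.pi) ^ ((d : ℝ) / 2)

theorem Kr_pos (d : ℕ) : 0 < Kr d := Real.rpow_pos_of_pos (by positivity) _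

theorem Kr_eq (d : ℕ) : (Kr d : ℂ) =
    ((Real.pi : ℂ) / (1 / 4 : ℂ)) ^ ((Fintype.card (Fin d) : ℂ) / 2) := by
  unfold Kr
  rw [Complex.ofReal_cpow (by positivity), Fintype.card_fin]
  congr 1
  · push_cast
    ring
  · push_cast
    ring

/-- the exponential -/
noncomputable def ee (w z : E d) : ℂ :=
  Complex.exp (-(1 / 4 : ℂ) * (‖z‖ : ℂ) ^ 2 + (-(2 * Real.pi * Complex.I)) * (⟪w, z⟫ : ℝ))

theorem gau (w : E d) :
    ∫ z : E d, ee w z = (Kr d : ℂ) * Complex.exp (-(4 * Real.pi ^ 2 * ‖w‖ ^ 2 : ℝ)) := by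
  unfold ee
  rw [GaussianFourier.integral_cexp_neg_mul_sq_norm_add_of_euclideanSpace
    (b := (1 / 4 : ℂ)) (by norm_num) _ w, Kr_eq]
  congr 2
  push_cast
  have : Complex.I ^ 2 = -1 := Complex.I_sq
  linear_combination (4 * (Real.pi : ℂ) ^ 2 * (‖w‖ : ℂ) ^ 2) * this

theorem norm_ee (w z : E d) : ‖ee w z‖ = Real.exp (-(1 / 4) * ‖z‖ ^ 2) := by
  unfold ee
  rw [Complex.norm_exp]
  congr 1
  have h : (-(1 / 4 : ℂ) * (‖z‖ : ℂ) ^ 2 + (-(2 * Real.pi * Complex.I)) * (⟪w, z⟫ : ℝ)) =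
      ((-(1 / 4) * ‖z‖ ^ 2 : ℝ) : ℂ) + ((-(2 * Real.pi * ⟪w, z⟫) : ℝ) : ℂ) * Complex.I := by
    push_cast
    ring
  rw [h, Complex.add_re, Complex.re_ofReal_mul, Complex.I_re, mul_zero, add_zero,
    Complex.ofReal_re]

theorem int_ee (w : E d) : Integrable (fun z => ee w z) :=
  GaussianFourier.integrable_cexp_neg_mul_sq_norm_add_of_euclideanSpace
    (b := (1 / 4 : ℂ)) (by norm_num) _ w

theorem int_exp {b : ℝ} (hb : 0 < b) : Integrable (fun z : E d => Real.exp (-b * ‖z‖ ^ 2)) := by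
  have h := (GaussianFourier.integrable_cexp_neg_mul_sq_norm_add_of_euclideanSpace
    (b := (b : ℂ)) (by simpa using hb) 0 (0 : E d)).norm
  refine h.congr (Filter.Eventually.of_forall fun z => ?_)
  change ‖Complex.exp _‖ = _
  rw [Complex.norm_exp]
  congr 1
  have h2 : (-(b : ℂ) * (‖z‖ : ℂ) ^ 2 + 0 * (⟪(0 : E d), z⟫ : ℝ)) =
      ((-b * ‖z‖ ^ 2 : ℝ) : ℂ) := by
    push_cast
    ring
  rw [h2, Complex.ofReal_re]

theorem int_zexp (j : Fin d) :
    Integrable (fun z : E d => |z j| * Real.exp (-(1 / 4) * ‖z‖ ^ 2)) := by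
  refine ((int_exp (d := d) (b := 1 / 8) (by norm_num)).const_mul 2).mono' ?_ ?_
  · refine Continuous.aestronglyMeasurable ?_
    fun_prop
  · refine Filter.Eventually.of_forall fun z => ?_
    rw [Real.norm_eq_abs, abs_of_nonneg (by positivity)]
    have h1 : |z j| ≤ ‖z‖ := by
      have := EuclideanSpace.norm_eq z
      rw [this]
      refine Real.le_sqrt_of_sq_le ?_
      have h2 := Finset.single_le_sum (f := fun i => ‖z i‖ ^ 2) (fun i _ => sq_nonneg _)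
        (Finset.mem_univ j)
      simpa using h2
    have h2 : ‖z‖ ≤ 2 * Real.exp (1 / 8 * ‖z‖ ^ 2) := by
      have h3 := Real.add_one_le_exp (1 / 8 * ‖z‖ ^ 2)
      nlinarith [sq_nonneg (‖z‖ - 2), norm_nonneg z]
    have h4 : Real.exp (-(1 / 4) * ‖z‖ ^ 2) =
        Real.exp (-(1 / 8) * ‖z‖ ^ 2) * Real.exp (-(1 / 8) * ‖z‖ ^ 2) := by
      rw [← Real.exp_add]
      congr 1
      ring
    have h5 : Real.exp (1 / 8 * ‖z‖ ^ 2) * Real.exp (-(1 / 8) * ‖z‖ ^ 2) = 1 := by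
      rw [← Real.exp_add]
      ring_nf
      exact Real.exp_zero
    have h6 := Real.exp_pos (-(1 / 8) * ‖z‖ ^ 2)
    calc |z j| * Real.exp (-(1 / 4) * ‖z‖ ^ 2)
        ≤ (2 * Real.exp (1 / 8 * ‖z‖ ^ 2)) * Real.exp (-(1 / 4) * ‖z‖ ^ 2) :=
          mul_le_mul_of_nonneg_right (h1.trans h2) (Real.exp_pos _).le
      _ = 2 * (Real.exp (1 / 8 * ‖z‖ ^ 2) * Real.exp (-(1 / 8) * ‖z‖ ^ 2)) *
          Real.exp (-(1 / 8) * ‖z‖ ^ 2) := by rw [h4]; ring
      _ = 2 * Real.exp (-(1 / 8) * ‖z‖ ^ 2) := by rw [h5, mul_one]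

theorem cont_ee (w : E d) : Continuous (fun z => ee w z) := by
  unfold ee
  fun_prop

theorem gau1 (j : Fin d) (w : E d) :
    ∫ z : E d, (z j : ℂ) * ee w z = (Kr d : ℂ) * (-(4 * Real.pi * Complex.I) * (w j : ℂ)) *
      Complex.exp (-(4 * Real.pi ^ 2 * ‖w‖ ^ 2 : ℝ)) := by
  classical
  let e : E d := EuclideanSpace.single j (1 : ℝ)
  have hin : ∀ z : E d, ⟪e, z⟫ = z j := by
    intro z
    simp [e, EuclideanSpace.inner_single_left]
  have hin2 : ∀ t : ℝ, ∀ z : E d, ⟪w + t • e, z⟫ = ⟪w, z⟫ + t * z j := by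
    intro t z
    rw [inner_add_left, real_inner_smul_left, hin]
  let F : ℝ → E d → ℂ := fun t z => ee (w + t • e) z
  let F' : ℝ → E d → ℂ := fun t z => (-(2 * Real.pi * Complex.I) * (z j : ℂ)) * ee (w + t • e) z
  have hd : ∀ z : E d, ∀ t : ℝ, HasDerivAt (fun t => F t z) (F' t z) t := by
    intro z t
    have h1 : HasDerivAt (fun t : ℝ => -(1 / 4 : ℂ) * (‖z‖ : ℂ) ^ 2 +
        (-(2 * Real.pi * Complex.I)) * ((⟪w, z⟫ + t * z j : ℝ) : ℂ))
        (-(2 * Real.pi * Complex.I) * (z j : ℂ)) t := by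
      have h2 : HasDerivAt (fun t : ℝ => ⟪w, z⟫ + t * z j) (z j) t := by
        have := ((hasDerivAt_id t).mul_const (z j)).const_add ⟪w, z⟫
        simpa using this
      have h3 := (h2.ofReal_comp.const_mul (-(2 * Real.pi * Complex.I))).const_add
        (-(1 / 4 : ℂ) * (‖z‖ : ℂ) ^ 2)
      exact h3
    have h4 := h1.cexp
    change HasDerivAt (fun t => ee (w + t • e) z)
      ((-(2 * Real.pi * Complex.I) * (z j : ℂ)) * ee (w + t • e) z) t
    unfold ee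
    simp only [hin2]
    convert h4 using 1
    ring
  have hder := (hasDerivAt_integral_of_dominated_loc_of_deriv_le (μ := volume) (F := F)
    (F' := F') (x₀ := (0 : ℝ)) (s := Set.univ)
    (bound := fun z => 2 * Real.pi * (|z j| * Real.exp (-(1 / 4) * ‖z‖ ^ 2)))
    Filter.univ_mem
    (Filter.Eventually.of_forall fun t => (cont_ee _).aestronglyMeasurable)
    (int_ee _)
    (by
      refine Continuous.aestronglyMeasurable ?_
      have := cont_ee (w + (0 : ℝ) • e)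
      change Continuous fun z => (-(2 * Real.pi * Complex.I) * (z j : ℂ)) * ee (w + (0 : ℝ) • e) z
      fun_prop)
    (Filter.Eventually.of_forall fun z t _ => by
      change ‖(-(2 * Real.pi * Complex.I) * (z j : ℂ)) * ee (w + t • e) z‖ ≤ _
      rw [norm_mul, norm_ee, norm_mul, norm_neg, norm_mul, norm_mul, Complex.norm_I, mul_one,
        Complex.norm_real, Complex.norm_real, Real.norm_eq_abs, Real.norm_eq_abs,
        abs_of_pos Real.pi_pos, Complex.norm_ofNat, mul_assoc (2 * Real.pi)])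
    ((int_zexp j).const_mul _)
    (Filter.Eventually.of_forall fun z t _ => hd z t)).2
  have hcl : HasDerivAt (fun t : ℝ => ∫ z, F t z)
      ((Kr d : ℂ) * (((-(4 * Real.pi ^ 2 * (2 * w j)) : ℝ) : ℂ) *
        Complex.exp (-(4 * Real.pi ^ 2 * ‖w‖ ^ 2 : ℝ)))) 0 := by
    have h1 : (fun t : ℝ => ∫ z, F t z) = fun t : ℝ => (Kr d : ℂ) *
        Complex.exp ((-(4 * Real.pi ^ 2 * (‖w‖ ^ 2 + 2 * (t * w j) + t ^ 2)) : ℝ)) := by
      funext t
      change ∫ z, ee (w + t • e) z = _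
      rw [gau]
      congr 2
      have h2 : ‖w + t • e‖ ^ 2 = ‖w‖ ^ 2 + 2 * (t * w j) + t ^ 2 := by
        rw [norm_add_sq_real, real_inner_smul_right, real_inner_comm, hin, norm_smul]
        simp [e]
      rw [h2]
      push_cast
      ring
    rw [h1]
    have h3 : HasDerivAt (fun t : ℝ => -(4 * Real.pi ^ 2 * (‖w‖ ^ 2 + 2 * (t * w j) + t ^ 2)))
        (-(4 * Real.pi ^ 2 * (2 * w j))) 0 := by
      have h4 : HasDerivAt (fun t : ℝ => ‖w‖ ^ 2 + 2 * (t * w j) + t ^ 2) (2 * w j) 0 := by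
        have h5 := (((hasDerivAt_id (0 : ℝ)).mul_const (w j)).const_mul 2).const_add (‖w‖ ^ 2)
        have h6 := hasDerivAt_pow 2 (0 : ℝ)
        have h7 : HasDerivAt (fun t : ℝ => ‖w‖ ^ 2 + 2 * (t * w j) + t ^ 2)
            (2 * (1 * w j) + ((2 : ℕ) : ℝ) * 0 ^ (2 - 1)) 0 := h5.add h6
        exact h7.congr_deriv (by norm_num)
      exact (h4.const_mul (4 * Real.pi ^ 2)).neg
    have h8 := (h3.ofReal_comp.cexp).const_mul (Kr d : ℂ)
    refine h8.congr_deriv ?_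
    have h9 : ‖w‖ ^ 2 + 2 * (0 * w j) + 0 ^ 2 = ‖w‖ ^ 2 := by ring
    rw [h9]
    push_cast
    ring
  have huniq := hder.unique hcl
  have h9 : ∫ z : E d, F' 0 z = (-(2 * Real.pi * Complex.I)) * ∫ z : E d, (z j : ℂ) * ee w z := by
    rw [← integral_const_mul]
    refine integral_congr_ae (Filter.Eventually.of_forall fun z => ?_)
    change (-(2 * Real.pi * Complex.I) * (z j : ℂ)) * ee (w + (0 : ℝ) • e) z = _
    rw [zero_smul, add_zero]
    ring
  rw [h9] at huniq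
  have hne : (-(2 * Real.pi * Complex.I) : ℂ) ≠ 0 := by
    rw [neg_ne_zero]
    have : (Real.pi : ℂ) ≠ 0 := by exact_mod_cast Real.pi_ne_zero
    exact mul_ne_zero (mul_ne_zero two_ne_zero this) Complex.I_ne_zero
  refine mul_left_cancel₀ hne (huniq.trans ?_)
  push_cast
  have hI : Complex.I ^ 2 = -1 := Complex.I_sq
  linear_combination (-(8 * (Real.pi : ℂ) ^ 2 * (w j : ℂ) * (Kr d : ℂ) *
    Complex.exp (-(4 * (Real.pi : ℂ) ^ 2 * (‖w‖ : ℂ) ^ 2)))) * hI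

/-- the phase -/
noncomputable def ph (ξ : E d) (q : ℝ × E d) : ℂ :=
  Complex.exp (((-(2 * Real.pi * ⟪Real.sqrt q.1 • q.2, ξ⟫) : ℝ) : ℂ) * Complex.I)

theorem cont_ph (ξ : E d) : Continuous (ph ξ) := by
  unfold ph
  fun_prop

theorem norm_ph (ξ : E d) (q : ℝ × E d) : ‖ph ξ q‖ = 1 := Complex.norm_exp_ofReal_mul_I _

/-- the weight -/
noncomputable def wt (a c u : ℝ) : ℝ :=
  (Set.Ioi (0 : ℝ)).indicator (fun u => Real.exp (-u) * u ^ (a - 1) * c) u

theorem int_wt {a : ℝ} (ha : 0 < a) (c : ℝ) : Integrable (wt a c) := by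
  have h := (Real.GammaIntegral_convergent ha).mul_const c
  exact (integrable_indicator_iff measurableSet_Ioi).2 h

/-- the Gaussian -/
noncomputable def Gs (z : E d) : ℝ := (Kr d)⁻¹ * Real.exp (-(1 / 4) * ‖z‖ ^ 2)

theorem ph_Gs (ξ : E d) (u : ℝ) (z : E d) :
    ph ξ (u, z) * (Gs z : ℂ) = (Kr d : ℂ)⁻¹ * ee (Real.sqrt u • ξ) z := by
  unfold ph Gs ee
  have h1 : ⟪Real.sqrt u • ξ, z⟫ = ⟪Real.sqrt u • z, ξ⟫ := by
    rw [real_inner_smul_left, real_inner_smul_left, real_inner_comm]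
  rw [h1]
  push_cast
  rw [mul_left_comm, ← Complex.exp_add]
  congr 2
  ring

theorem main (wt : ℝ → ℝ) (hw : Integrable wt) (H : E d → ℝ) (hH : Integrable H) (ξ : E d)
    (J : ℝ → ℂ) (hJ : ∀ u, 0 < u → ∫ z : E d, ph ξ (u, z) * (H z : ℂ) = J u)
    (h0 : ∀ u ≤ 0, wt u = 0) :
    Integrable (fun q : ℝ × E d => ((wt q.1 * H q.2 : ℝ) : ℂ)) ∧
    ∫ q : ℝ × E d, ph ξ q * ((wt q.1 * H q.2 : ℝ) : ℂ) = ∫ u, (wt u : ℂ) * J u := by
  have hi : Integrable (fun q : ℝ × E d => ((wt q.1 * H q.2 : ℝ) : ℂ)) :=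
    (hw.mul_prod hH).ofReal
  refine ⟨hi, ?_⟩
  have hi2 : Integrable (fun q : ℝ × E d => ph ξ q * ((wt q.1 * H q.2 : ℝ) : ℂ)) := by
    refine hi.norm.mono' ((cont_ph ξ).aestronglyMeasurable.mul hi.aestronglyMeasurable) ?_
    refine Filter.Eventually.of_forall fun q => ?_
    rw [norm_mul, norm_ph, one_mul]
  rw [MeasureTheory.Measure.volume_eq_prod] at hi2 ⊢
  rw [integral_prod _ hi2]
  refine integral_congr_ae (Filter.Eventually.of_forall fun u => ?_)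
  change ∫ z : E d, ph ξ (u, z) * ((wt u * H z : ℝ) : ℂ) = (wt u : ℂ) * J u
  rcases le_or_gt u 0 with hu | hu
  · rw [h0 u hu]
    simp
  · rw [← hJ u hu, ← integral_const_mul]
    refine integral_congr_ae (Filter.Eventually.of_forall fun z => ?_)
    change ph ξ (u, z) * ((wt u * H z : ℝ) : ℂ) = (wt u : ℂ) * (ph ξ (u, z) * (H z : ℂ))
    push_cast
    ring

theorem gamma_int {a : ℝ} (ha : 0 < a) (ξ : E d) :
    ∫ u, wt a (Real.Gamma a)⁻¹ u * Real.exp (-(4 * Real.pi ^ 2 * (u * ‖ξ‖ ^ 2))) =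
      (1 + 4 * Real.pi ^ 2 * ‖ξ‖ ^ 2) ^ (-a) := by
  have hr : 0 < 1 + 4 * Real.pi ^ 2 * ‖ξ‖ ^ 2 := by positivity
  have h1 : (fun u => wt a (Real.Gamma a)⁻¹ u * Real.exp (-(4 * Real.pi ^ 2 * (u * ‖ξ‖ ^ 2)))) =
      (Set.Ioi (0 : ℝ)).indicator (fun u => (Real.Gamma a)⁻¹ * (u ^ (a - 1) *
        Real.exp (-((1 + 4 * Real.pi ^ 2 * ‖ξ‖ ^ 2) * u)))) := by
    funext u
    unfold wt
    by_cases hu : u ∈ Set.Ioi (0 : ℝ)
    · rw [Set.indicator_of_mem hu, Set.indicator_of_mem hu]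
      have h2 : Real.exp (-((1 + 4 * Real.pi ^ 2 * ‖ξ‖ ^ 2) * u)) =
          Real.exp (-u) * Real.exp (-(4 * Real.pi ^ 2 * (u * ‖ξ‖ ^ 2))) := by
        rw [← Real.exp_add]
        congr 1
        ring
      rw [h2]
      ring
    · rw [Set.indicator_of_notMem hu, Set.indicator_of_notMem hu, zero_mul]
  rw [h1, integral_indicator measurableSet_Ioi, integral_const_mul,
    Real.integral_rpow_mul_exp_neg_mul_Ioi ha hr, one_div, Real.inv_rpow hr.le,
    Real.rpow_neg hr.le]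
  have h3 := (Real.Gamma_pos_of_pos ha).ne'
  field_simp

theorem gamma_intC {a : ℝ} (ha : 0 < a) (ξ : E d) :
    ∫ u : ℝ, ((wt a (Real.Gamma a)⁻¹ u * Real.exp (-(4 * Real.pi ^ 2 * (u * ‖ξ‖ ^ 2))) : ℝ) : ℂ) =
      (((1 + 4 * Real.pi ^ 2 * ‖ξ‖ ^ 2) ^ (-a) : ℝ) : ℂ) := by
  rw [← gamma_int ha]
  exact integral_ofReal (𝕜 := ℂ)

theorem wt_nonpos (a c u : ℝ) (hu : u ≤ 0) : wt a c u = 0 := by
  unfold wt
  exact Set.indicator_of_notMem (not_lt.2 hu) _

theorem t_bes : S_BES := by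
  intro d s
  have hKne : (Kr d : ℂ) ≠ 0 := by exact_mod_cast (Kr_pos d).ne'
  have hsq : ∀ (u : ℝ) (ξ : E d), 0 < u → ‖Real.sqrt u • ξ‖ ^ 2 = u * ‖ξ‖ ^ 2 := by
    intro u ξ hu
    rw [norm_smul, mul_pow, Real.norm_eq_abs, sq_abs, Real.sq_sqrt hu.le]
  constructor
  · intro hs
    have ha : 0 < s / 2 := by linarith
    have hGi : Integrable (Gs (d := d)) := (int_exp (by norm_num)).const_mul _
    have hJ : ∀ (ξ : E d) (u : ℝ), 0 < u → ∫ z : E d, ph ξ (u, z) * (Gs z : ℂ) =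
        ((Real.exp (-(4 * Real.pi ^ 2 * (u * ‖ξ‖ ^ 2))) : ℝ) : ℂ) := by
      intro ξ u hu
      simp only [ph_Gs]
      rw [integral_const_mul, gau, hsq u ξ hu, inv_mul_cancel_left₀ hKne]
      push_cast
      rfl
    refine ⟨fun q => ((wt (s / 2) (Real.Gamma (s / 2))⁻¹ q.1 * Gs q.2 : ℝ) : ℂ),
      (main _ (int_wt ha _) _ hGi 0 _ (hJ 0) (wt_nonpos _ _)).1, fun ξ => ?_⟩
    refine Eq.trans ?_ (main _ (int_wt ha _) _ hGi ξ _ (hJ ξ) (wt_nonpos _ _)).2.symm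
    have h1 : ∀ u : ℝ, ((wt (s / 2) (Real.Gamma (s / 2))⁻¹ u : ℝ) : ℂ) *
        ((Real.exp (-(4 * Real.pi ^ 2 * (u * ‖ξ‖ ^ 2))) : ℝ) : ℂ) =
        ((wt (s / 2) (Real.Gamma (s / 2))⁻¹ u *
          Real.exp (-(4 * Real.pi ^ 2 * (u * ‖ξ‖ ^ 2))) : ℝ) : ℂ) := by
      intro u
      push_cast
      rfl
    simp only [h1]
    rw [gamma_intC ha ξ]
    unfold bes
    congr 2
    ring
  · intro hs j
    have ha : 0 < s / 2 := by linarith
    have ha' : 0 < s / 2 - 1 / 2 := by linarith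
    let H : E d → ℝ := fun z => -(z j) / 2 * Gs z
    have hHi : Integrable H := by
      have h1 : Integrable (fun z : E d => (-(1 / 2) * (Kr d)⁻¹) *
          ((z j) * Real.exp (-(1 / 4) * ‖z‖ ^ 2))) := by
        refine Integrable.const_mul ?_ _
        refine (int_zexp j).mono' ?_ (Filter.Eventually.of_forall fun z => ?_)
        · refine Continuous.aestronglyMeasurable ?_
          fun_prop
        · rw [norm_mul, Real.norm_eq_abs, Real.norm_eq_abs, abs_of_pos (Real.exp_pos _)]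
      refine h1.congr (Filter.Eventually.of_forall fun z => ?_)
      change _ = -(z j) / 2 * Gs z
      unfold Gs
      ring
    have hJ : ∀ (ξ : E d) (u : ℝ), 0 < u → ∫ z : E d, ph ξ (u, z) * (H z : ℂ) =
        ((2 * Real.pi * ξ j : ℝ) : ℂ) * Complex.I *
          ((Real.sqrt u * Real.exp (-(4 * Real.pi ^ 2 * (u * ‖ξ‖ ^ 2))) : ℝ) : ℂ) := by
      intro ξ u hu
      have h1 : ∀ z : E d, ph ξ (u, z) * (H z : ℂ) =
          (-(1 / 2) * (Kr d : ℂ)⁻¹) * ((z j : ℂ) * ee (Real.sqrt u • ξ) z) := by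
        intro z
        have h2 := ph_Gs ξ u z
        change ph ξ (u, z) * ((-(z j) / 2 * Gs z : ℝ) : ℂ) = _
        push_cast
        linear_combination (-(z j : ℂ) / 2) * h2
      simp only [h1]
      rw [integral_const_mul, gau1, hsq u ξ hu]
      have h3 : (Real.sqrt u • ξ) j = Real.sqrt u * ξ j := rfl
      rw [h3]
      push_cast
      field_simp
      ring
    refine ⟨fun q => ((wt (s / 2 - 1 / 2) (Real.Gamma (s / 2))⁻¹ q.1 * H q.2 : ℝ) : ℂ),
      (main _ (int_wt ha' _) _ hHi 0 _ (hJ 0) (wt_nonpos _ _)).1, fun ξ => ?_⟩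
    refine Eq.trans ?_ (main _ (int_wt ha' _) _ hHi ξ _ (hJ ξ) (wt_nonpos _ _)).2.symm
    have h1 : ∀ u : ℝ, ((wt (s / 2 - 1 / 2) (Real.Gamma (s / 2))⁻¹ u : ℝ) : ℂ) *
        (((2 * Real.pi * ξ j : ℝ) : ℂ) * Complex.I *
          ((Real.sqrt u * Real.exp (-(4 * Real.pi ^ 2 * (u * ‖ξ‖ ^ 2))) : ℝ) : ℂ)) =
        (((2 * Real.pi * ξ j : ℝ) : ℂ) * Complex.I) * ((wt (s / 2) (Real.Gamma (s / 2))⁻¹ u *
          Real.exp (-(4 * Real.pi ^ 2 * (u * ‖ξ‖ ^ 2))) : ℝ) : ℂ) := by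
      intro u
      have h2 : wt (s / 2 - 1 / 2) (Real.Gamma (s / 2))⁻¹ u * Real.sqrt u =
          wt (s / 2) (Real.Gamma (s / 2))⁻¹ u := by
        rcases le_or_gt u 0 with hu | hu
        · rw [wt_nonpos _ _ _ hu, wt_nonpos _ _ _ hu, zero_mul]
        · unfold wt
          rw [Set.indicator_of_mem (show u ∈ Set.Ioi (0 : ℝ) from hu),
            Set.indicator_of_mem (show u ∈ Set.Ioi (0 : ℝ) from hu), Real.sqrt_eq_rpow]
          have h3 : u ^ (s / 2 - 1) = u ^ (s / 2 - 1 / 2 - 1) * u ^ (1 / 2 : ℝ) := by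
            rw [← Real.rpow_add hu]
            congr 1
            ring
          rw [h3]
          ring
      rw [← h2]
      push_cast
      ring
    simp only [h1]
    rw [integral_const_mul, gamma_intC ha ξ]
    unfold bes
    congr 3
    ring

end Pool.Agent.N413.LSBES
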